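import Mathlib

/-!
A product of powers of cosines concentrated near zero.
-/

set_option autoImplicit false

open Finset Polynomial

namespace Pool.Agent.Helper40.MB

/-- exponent -/
def ex (B j : ℕ) : ℕ := 5 * B / 2 ^ j + 1

/-- the damping polynomial -/
noncomputable def G (B J : ℕ) : ℂ[X] :=
  ∏ j ∈ range (J + 1), (C (1 / 2 : ℂ) * (1 + X ^ (2 ^ j))) ^ (2 * ex B j)

lemma eval_G (B J : ℕ) (w : ℂ) :
    (G B J).eval w = ∏ j ∈ range (J + 1), ((1 / 2) * (1 + w ^ (2 ^ j))) ^ (2 * ex B j) := by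
  unfold G
  rw [eval_prod]
  refine prod_congr rfl fun j _ => ?_
  simp

lemma eval_G_one (B J : ℕ) : (G B J).eval 1 = 1 := by
  rw [eval_G]
  apply prod_eq_one
  intro j _
  norm_num

lemma natDegree_G (B J : ℕ) :
    (G B J).natDegree ≤ ∑ j ∈ range (J + 1), 2 * ex B j * 2 ^ j := by
  unfold G
  refine (natDegree_prod_le _ _).trans (sum_le_sum fun j _ => ?_)
  refine natDegree_pow_le.trans ?_
  apply Nat.mul_le_mul_left
  refine (natDegree_C_mul_le _ _).trans ?_
  refine (natDegree_add_le _ _).trans ?_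
  simp

lemma degree_bound (B J : ℕ) (hJ : 2 ^ J ≤ 2 * B) :
    ∑ j ∈ range (J + 1), 2 * ex B j * 2 ^ j ≤ 10 * B * (J + 1) + 8 * B := by
  have h1 : ∀ j ∈ range (J + 1), 2 * ex B j * 2 ^ j ≤ 10 * B + 2 * 2 ^ j := by
    intro j _
    unfold ex
    have := Nat.div_mul_le_self (5 * B) (2 ^ j)
    nlinarith
  refine (sum_le_sum h1).trans ?_
  rw [sum_add_distrib, sum_const, card_range, smul_eq_mul, ← mul_sum]
  have h2 := Nat.geomSum_eq (le_refl 2) (J + 1)
  have h3 : ∑ k ∈ range (J + 1), 2 ^ k ≤ 2 * 2 ^ J := by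
    rw [h2, pow_succ]
    omega
  nlinarith

lemma norm_half_le {w : ℂ} (hw : ‖w‖ = 1) : ‖(1 / 2 : ℂ) * (1 + w)‖ ≤ 1 := by
  rw [norm_mul]
  have h1 : ‖(1 / 2 : ℂ)‖ = 1 / 2 := by norm_num
  have h2 : ‖1 + w‖ ≤ 2 := by
    calc ‖1 + w‖ ≤ ‖(1 : ℂ)‖ + ‖w‖ := norm_add_le _ _
      _ = 2 := by rw [hw, norm_one]; norm_num
  rw [h1]
  linarith

lemma norm_G_le {w : ℂ} (hw : ‖w‖ = 1) (B J : ℕ) : ‖(G B J).eval w‖ ≤ 1 := by
  rw [eval_G, norm_prod]
  apply prod_le_one
  · intro j _; exact norm_nonneg _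
  · intro j _
    rw [norm_pow]
    exact pow_le_one₀ (norm_nonneg _) (norm_half_le (by rw [norm_pow, hw, one_pow]))

lemma norm_G_le_factor {w : ℂ} (hw : ‖w‖ = 1) (B J j : ℕ) (hj : j ≤ J) :
    ‖(G B J).eval w‖ ≤ ‖(1 / 2 : ℂ) * (1 + w ^ (2 ^ j))‖ ^ (2 * ex B j) := by
  rw [eval_G, norm_prod, ← mul_prod_erase (range (J + 1)) _ (mem_range.2 (Nat.lt_succ_of_le hj)),
    norm_pow]
  have h1 : ∏ x ∈ (range (J + 1)).erase j, ‖((1 / 2 : ℂ) * (1 + w ^ (2 ^ x))) ^ (2 * ex B x)‖ ≤ 1 := by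
    apply prod_le_one
    · intro j _; exact norm_nonneg _
    · intro j _
      rw [norm_pow]
      exact pow_le_one₀ (norm_nonneg _) (norm_half_le (by rw [norm_pow, hw, one_pow]))
  calc _ ≤ ‖(1 / 2 : ℂ) * (1 + w ^ (2 ^ j))‖ ^ (2 * ex B j) * 1 :=
        mul_le_mul_of_nonneg_left h1 (by positivity)
    _ = _ := mul_one _

lemma norm_sq_half (θ : ℝ) :
    ‖(1 / 2 : ℂ) * (1 + Complex.exp (θ * Complex.I))‖ ^ 2 = (1 + Real.cos θ) / 2 := by
  rw [← Complex.normSq_eq_norm_sq, Complex.normSq_apply]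
  have h1 : ((1 / 2 : ℂ) * (1 + Complex.exp (θ * Complex.I))).re = (1 + Real.cos θ) / 2 := by
    have : (1 / 2 : ℂ) = ((1 / 2 : ℝ) : ℂ) := by push_cast; ring
    rw [this, Complex.re_ofReal_mul, Complex.add_re, Complex.one_re, Complex.exp_ofReal_mul_I_re]
    ring
  have h2 : ((1 / 2 : ℂ) * (1 + Complex.exp (θ * Complex.I))).im = Real.sin θ / 2 := by
    have : (1 / 2 : ℂ) = ((1 / 2 : ℝ) : ℂ) := by push_cast; ring
    rw [this, Complex.im_ofReal_mul, Complex.add_im, Complex.one_im, Complex.exp_ofReal_mul_I_im]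
    ring
  rw [h1, h2]
  nlinarith [Real.sin_sq_add_cos_sq θ]

/-- the damping polynomial beats the exponential growth -/
lemma G_damp (B J : ℕ) (hJ : B ≤ 2 ^ J) {t : ℝ} (ht : |t| ≤ Real.pi) :
    ‖(G B J).eval (Complex.exp (t * Complex.I))‖ * Real.exp (B * |t|) ≤ Real.exp (Real.pi / 2) := by
  have hw : ‖Complex.exp (t * Complex.I)‖ = 1 := Complex.norm_exp_ofReal_mul_I t
  have hpi := Real.pi_pos
  rcases le_or_gt (|t|) (Real.pi / 2 ^ (J + 1)) with h | h
  · have h1 : (B : ℝ) * |t| ≤ Real.pi / 2 := by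
      have hB : (B : ℝ) ≤ 2 ^ J := by exact_mod_cast hJ
      calc (B : ℝ) * |t| ≤ 2 ^ J * (Real.pi / 2 ^ (J + 1)) :=
            mul_le_mul hB h (abs_nonneg t) (by positivity)
        _ = Real.pi / 2 := by rw [pow_succ]; field_simp
    calc ‖(G B J).eval (Complex.exp (t * Complex.I))‖ * Real.exp (B * |t|)
        ≤ 1 * Real.exp (Real.pi / 2) :=
          mul_le_mul (norm_G_le hw B J) (Real.exp_le_exp.2 h1) (Real.exp_pos _).le zero_le_one
      _ = _ := one_mul _
  · -- the right scale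
    have hex : ∃ k : ℕ, Real.pi / 2 ^ k < |t| := ⟨J + 1, h⟩
    classical
    have hk1 := Nat.find_spec hex
    have hk2 : Nat.find hex ≤ J + 1 := Nat.find_min' hex h
    have hk3 : Nat.find hex ≠ 0 := by
      intro h0
      rw [h0, pow_zero, div_one] at hk1
      linarith
    obtain ⟨j, hj⟩ := Nat.exists_eq_succ_of_ne_zero hk3
    rw [hj] at hk1 hk2
    have hk4 : |t| ≤ Real.pi / 2 ^ j := by
      by_contra hcon
      exact Nat.find_min hex (show j < Nat.find hex by omega) (not_le.1 hcon)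
    have hjJ : j ≤ J := by omega
    have h2j : (0 : ℝ) < 2 ^ j := by positivity
    -- the cosine is nonpositive
    have hcos : Real.cos (2 ^ j * t) ≤ 0 := by
      rw [← Real.cos_abs]
      have e1 : |2 ^ j * t| = 2 ^ j * |t| := by rw [abs_mul, abs_of_pos h2j]
      rw [e1]
      apply Real.cos_nonpos_of_pi_div_two_le_of_le
      · have : Real.pi / 2 ^ (j + 1) < |t| := hk1
        rw [pow_succ, div_lt_iff₀ (by positivity)] at this
        nlinarith
      · rw [le_div_iff₀ h2j] at hk4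
        nlinarith
    have hfac : ‖(1 / 2 : ℂ) * (1 + Complex.exp (t * Complex.I) ^ (2 ^ j))‖ ^ 2 ≤ 1 / 2 := by
      have e1 : Complex.exp (t * Complex.I) ^ (2 ^ j)
          = Complex.exp (((2 ^ j * t : ℝ) : ℂ) * Complex.I) := by
        rw [← Complex.exp_nat_mul]
        congr 1
        push_cast
        ring
      rw [e1, norm_sq_half]
      linarith
    have h1 := norm_G_le_factor hw B J j hjJ
    rw [pow_mul] at h1
    have h2 : (‖(1 / 2 : ℂ) * (1 + Complex.exp (t * Complex.I) ^ (2 ^ j))‖ ^ 2) ^ ex B j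
        ≤ (1 / 2) ^ ex B j := pow_le_pow_left₀ (by positivity) hfac _
    have h3 : (1 / 2 : ℝ) ^ ex B j = Real.exp (-(ex B j * Real.log 2)) := by
      rw [Real.exp_neg, mul_comm, Real.exp_mul, Real.exp_log (by norm_num), one_div, inv_pow,
        Real.rpow_natCast]
    have h4 : (B : ℝ) * |t| ≤ ex B j * Real.log 2 := by
      have h5 : 5 * (B : ℝ) / 2 ^ j ≤ ex B j := by
        unfold ex
        rw [div_le_iff₀ h2j]
        have h6 : 5 * B < (5 * B / 2 ^ j + 1) * 2 ^ j := by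
          have := Nat.lt_div_mul_add (a := 5 * B) (b := 2 ^ j) (by positivity)
          rw [Nat.add_mul, one_mul]
          exact this
        exact_mod_cast h6.le
      have hlog := Real.log_two_gt_d9
      have hpi4 := Real.pi_lt_d2
      have hB0 : (0 : ℝ) ≤ B := Nat.cast_nonneg _
      calc (B : ℝ) * |t| ≤ B * (Real.pi / 2 ^ j) := mul_le_mul_of_nonneg_left hk4 hB0
        _ = (B / 2 ^ j) * Real.pi := by ring
        _ ≤ (B / 2 ^ j) * (5 * Real.log 2) := by
          apply mul_le_mul_of_nonneg_left _ (by positivity)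
          linarith
        _ = (5 * (B : ℝ) / 2 ^ j) * Real.log 2 := by ring
        _ ≤ ex B j * Real.log 2 := mul_le_mul_of_nonneg_right h5 (by linarith)
    calc ‖(G B J).eval (Complex.exp (t * Complex.I))‖ * Real.exp (B * |t|)
        ≤ Real.exp (-(ex B j * Real.log 2)) * Real.exp (ex B j * Real.log 2) := by
          apply mul_le_mul _ (Real.exp_le_exp.2 h4) (Real.exp_pos _).le (Real.exp_pos _).le
          rw [← h3]
          exact h1.trans h2
      _ = 1 := by rw [← Real.exp_add]; simp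
      _ ≤ Real.exp (Real.pi / 2) := Real.one_le_exp (by positivity)

lemma exp_half_pi : Real.exp (Real.pi / 2) ≤ 5 := by
  have h1 : Real.exp (Real.pi / 2) ≤ Real.exp (8 / 5) := by
    apply Real.exp_le_exp.2
    have := Real.pi_lt_d2
    linarith
  have h2 : Real.exp (8 / 5) ^ 5 = Real.exp 1 ^ 8 := by
    rw [← Real.exp_nat_mul, ← Real.exp_nat_mul]
    norm_num
  have h3 : Real.exp 1 ^ 8 ≤ 5 ^ 5 := by
    have := Real.exp_one_lt_d9
    calc Real.exp 1 ^ 8 ≤ 2.7182818286 ^ 8 := pow_le_pow_left₀ (Real.exp_pos _).le this.le 8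
      _ ≤ 5 ^ 5 := by norm_num
  have h4 : Real.exp (8 / 5) ≤ 5 := by
    rw [← h2] at h3
    exact le_of_pow_le_pow_left₀ (by norm_num) (by norm_num) h3
  exact h1.trans h4

end Pool.Agent.Helper40.MB
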