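import Mathlib
import Pool.Agent.Helper54.MB.Growth

/-!
The imaginary part of the numerical range of the Laplacian on low degree functions in `L^{2m}`,
`m` even, and the growth of the unitary group `exp(i t Δ)`.
-/

set_option autoImplicit false

open Finset

namespace Pool.Agent.Helper40.MB

open Pool.Agent.Helper54.MB

variable {n : ℕ}

/-- `χ(a) = |a|^{m-2} a^2`. -/
noncomputable def chi (m : ℕ) (a : ℂ) : ℂ := (‖a‖ : ℂ) ^ (m - 2) * a ^ 2

lemma norm_chi (m : ℕ) (hm : 2 ≤ m) (a : ℂ) : ‖chi m a‖ = ‖a‖ ^ m := by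
  unfold chi
  rw [norm_mul, norm_pow, norm_pow, Complex.norm_real, norm_norm, ← pow_add]
  congr 1
  omega

/-- A scalar inequality. -/
lemma scalar_aux {P Q t : ℝ} (hQ : 0 ≤ Q) (hPQ : Q ≤ P) (ht0 : 0 ≤ t) (ht1 : t ≤ 1) :
    (P ^ 2 - Q ^ 2) * t ≤ 2 * ((P - Q) ^ 2 + 4 * (P * Q) * t ^ 2) := by
  have hP : 0 ≤ P := hQ.trans hPQ
  rcases le_total P (16 * Q) with h | h
  · have h1 : P ^ 2 * t ^ 2 ≤ 16 * (P * Q) * t ^ 2 := by
      have : P ^ 2 ≤ 16 * (P * Q) := by nlinarith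
      exact mul_le_mul_of_nonneg_right this (sq_nonneg t)
    have h2 : (P ^ 2 - Q ^ 2) * t ≤ 2 * (P - Q) * P * t := by
      have : P ^ 2 - Q ^ 2 ≤ 2 * (P - Q) * P := by nlinarith [sq_nonneg (P - Q)]
      exact mul_le_mul_of_nonneg_right this ht0
    nlinarith [sq_nonneg (2 * (P - Q) - P * t)]
  · have h1 : (P ^ 2 - Q ^ 2) * t ≤ P ^ 2 := by
      have h3 : 0 ≤ P ^ 2 - Q ^ 2 := by nlinarith
      have h4 : (P ^ 2 - Q ^ 2) * t ≤ (P ^ 2 - Q ^ 2) * 1 := mul_le_mul_of_nonneg_left ht1 h3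
      nlinarith [sq_nonneg Q]
    have h2 : P ^ 2 ≤ 2 * (P - Q) ^ 2 := by
      have h3 : 15 / 16 * P ≤ P - Q := by linarith
      have h4 : (15 / 16 * P) ^ 2 ≤ (P - Q) ^ 2 := pow_le_pow_left₀ (by positivity) h3 2
      nlinarith [sq_nonneg P]
    have h5 : 0 ≤ 4 * (P * Q) * t ^ 2 := by positivity
    linarith

lemma scalar_ineq_aux (j : ℕ) {r s v : ℝ} (hs : 0 ≤ s) (hsr : s ≤ r) (hv0 : 0 ≤ v)
    (hv : v ≤ r * s) :
    (r ^ (2 * j + 2) - s ^ (2 * j + 2)) * v
      ≤ 2 * ((r ^ (j + 2) - s ^ (j + 2)) ^ 2 + 4 * (r ^ j * s ^ j) * v ^ 2) := by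
  have hr : 0 ≤ r := hs.trans hsr
  rcases eq_or_lt_of_le hs with h0 | hs0
  · have hv' : v = 0 := by
      apply le_antisymm _ hv0
      rw [← h0, mul_zero] at hv
      exact hv
    rw [hv']
    have : 0 ≤ (r ^ (j + 2) - s ^ (j + 2)) ^ 2 := sq_nonneg _
    nlinarith
  · have hr0 : 0 < r := lt_of_lt_of_le hs0 hsr
    have hrs : 0 < r * s := mul_pos hr0 hs0
    set t := v / (r * s) with ht
    have hvt : v = r * s * t := by rw [ht]; field_simp
    have ht0 : 0 ≤ t := div_nonneg hv0 hrs.le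
    have ht1 : t ≤ 1 := (div_le_one hrs).2 hv
    have hQP : s ^ (j + 2) ≤ r ^ (j + 2) := pow_le_pow_left₀ hs hsr _
    have h1 := scalar_aux (P := r ^ (j + 2)) (Q := s ^ (j + 2)) (pow_nonneg hs _) hQP ht0 ht1
    have h2 : (r ^ (2 * j + 2) - s ^ (2 * j + 2)) * v
        ≤ ((r ^ (j + 2)) ^ 2 - (s ^ (j + 2)) ^ 2) * t := by
      have h3 : (r ^ (2 * j + 2) - s ^ (2 * j + 2)) * (r * s)
          ≤ (r ^ (j + 2)) ^ 2 - (s ^ (j + 2)) ^ 2 := by
        have e1 : (r ^ (j + 2)) ^ 2 = r ^ (2 * j + 3) * r := by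
          rw [← pow_mul, ← pow_succ]; congr 1; ring
        have e2 : (s ^ (j + 2)) ^ 2 = s ^ (2 * j + 3) * s := by
          rw [← pow_mul, ← pow_succ]; congr 1; ring
        have e3 : r ^ (2 * j + 2) * (r * s) = r ^ (2 * j + 3) * s := by
          rw [← mul_assoc, ← pow_succ]
        have e4 : s ^ (2 * j + 2) * (r * s) = s ^ (2 * j + 3) * r := by
          rw [mul_comm r s, ← mul_assoc, ← pow_succ]
        rw [sub_mul, e1, e2, e3, e4]
        have h5 : 0 ≤ (r ^ (2 * j + 3) + s ^ (2 * j + 3)) * (r - s) := by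
          have := pow_nonneg hr (2 * j + 3)
          have := pow_nonneg hs (2 * j + 3)
          exact mul_nonneg (by linarith) (by linarith)
        nlinarith
      calc (r ^ (2 * j + 2) - s ^ (2 * j + 2)) * v
          = ((r ^ (2 * j + 2) - s ^ (2 * j + 2)) * (r * s)) * t := by rw [hvt]; ring
        _ ≤ _ := mul_le_mul_of_nonneg_right h3 ht0
    have h6 : 4 * (r ^ (j + 2) * s ^ (j + 2)) * t ^ 2 = 4 * (r ^ j * s ^ j) * v ^ 2 := by
      rw [hvt, pow_add, pow_add]; ring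
    rw [h6] at h1
    exact h2.trans h1

/-- The two-point inequality for the imaginary part. -/
lemma im_two_point (m : ℕ) (hm : 2 ≤ m) (a b : ℂ) :
    |((phi m a - phi m b) * (a - b)).im| ≤ 2 * ‖chi m a - chi m b‖ ^ 2 := by
  obtain ⟨j, rfl⟩ : ∃ j, m = j + 2 := ⟨m - 2, by omega⟩
  have h1 : 2 * (j + 2) - 2 = 2 * j + 2 := by omega
  have h2 : j + 2 - 2 = j := by omega
  simp only [phi, chi, h1, h2]
  set r := ‖a‖ with hr
  set s := ‖b‖ with hs
  have hr0 : 0 ≤ r := norm_nonneg a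
  have hs0 : 0 ≤ s := norm_nonneg b
  have hr2 : r ^ 2 = a.re * a.re + a.im * a.im := by
    rw [hr, ← Complex.normSq_apply, Complex.normSq_eq_norm_sq]
  have hs2 : s ^ 2 = b.re * b.re + b.im * b.im := by
    rw [hs, ← Complex.normSq_apply, Complex.normSq_eq_norm_sq]
  set V := a.re * b.im - a.im * b.re with hV
  set U := a.re * b.re + a.im * b.im with hU
  have hUV : U ^ 2 + V ^ 2 = r ^ 2 * s ^ 2 := by rw [hr2, hs2, hU, hV]; ring
  -- left hand side
  have e1 : (((r : ℂ) ^ (2 * j + 2) * star a - (s : ℂ) ^ (2 * j + 2) * star b) * (a - b)).im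
      = -(r ^ (2 * j + 2) - s ^ (2 * j + 2)) * V := by
    have e2 : (r : ℂ) ^ (2 * j + 2) = ((r ^ (2 * j + 2) : ℝ) : ℂ) := by push_cast; rfl
    have e3 : (s : ℂ) ^ (2 * j + 2) = ((s ^ (2 * j + 2) : ℝ) : ℂ) := by push_cast; rfl
    have e4 : star a = (starRingEnd ℂ) a := rfl
    have e5 : star b = (starRingEnd ℂ) b := rfl
    rw [e2, e3, e4, e5, hV]
    simp only [Complex.mul_re, Complex.sub_re, Complex.sub_im, Complex.mul_im, Complex.ofReal_re,
      Complex.ofReal_im, Complex.conj_re, Complex.conj_im]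
    ring
  -- right hand side
  have e6 : ‖(r : ℂ) ^ j * a ^ 2 - (s : ℂ) ^ j * b ^ 2‖ ^ 2
      = (r ^ (j + 2) - s ^ (j + 2)) ^ 2 + 4 * (r ^ j * s ^ j) * V ^ 2 := by
    have e2 : (r : ℂ) ^ j = ((r ^ j : ℝ) : ℂ) := by push_cast; rfl
    have e3 : (s : ℂ) ^ j = ((s ^ j : ℝ) : ℂ) := by push_cast; rfl
    rw [e2, e3, ← Complex.normSq_eq_norm_sq, Complex.normSq_apply]
    have e7 : (((r ^ j : ℝ) : ℂ) * a ^ 2 - ((s ^ j : ℝ) : ℂ) * b ^ 2).re
        = r ^ j * (a.re * a.re - a.im * a.im) - s ^ j * (b.re * b.re - b.im * b.im) := by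
      rw [sq, sq]
      simp only [Complex.mul_re, Complex.sub_re, Complex.mul_im, Complex.ofReal_re,
        Complex.ofReal_im]
      ring
    have e8 : (((r ^ j : ℝ) : ℂ) * a ^ 2 - ((s ^ j : ℝ) : ℂ) * b ^ 2).im
        = r ^ j * (2 * (a.re * a.im)) - s ^ j * (2 * (b.re * b.im)) := by
      rw [sq, sq]
      simp only [Complex.mul_re, Complex.sub_im, Complex.mul_im, Complex.ofReal_re,
        Complex.ofReal_im]
      ring
    rw [e7, e8]
    have e9 : r ^ (j + 2) = r ^ j * (a.re * a.re + a.im * a.im) := by rw [pow_add, hr2]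
    have e10 : s ^ (j + 2) = s ^ j * (b.re * b.re + b.im * b.im) := by rw [pow_add, hs2]
    rw [e9, e10, hV]
    ring
  rw [e1, e6, abs_mul, abs_neg]
  have hVrs : |V| ≤ r * s := by
    apply abs_le_of_sq_le_sq _ (mul_nonneg hr0 hs0)
    nlinarith [sq_nonneg U]
  have hV2 : V ^ 2 = |V| ^ 2 := (sq_abs V).symm
  rw [hV2]
  rcases le_total s r with h | h
  · rw [abs_of_nonneg (sub_nonneg.2 (pow_le_pow_left₀ hs0 h _))]
    exact scalar_ineq_aux j hs0 h (abs_nonneg V) hVrs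
  · rw [abs_of_nonpos (sub_nonpos.2 (pow_le_pow_left₀ hr0 h _)), neg_sub]
    have := scalar_ineq_aux j hr0 h (abs_nonneg V) (by rw [mul_comm]; exact hVrs)
    calc (s ^ (2 * j + 2) - r ^ (2 * j + 2)) * |V| ≤ _ := this
      _ = _ := by ring

/-- For even `m ≥ 2`, `χ ∘ u` has degree at most `m d`. -/
lemma chi_mem_D {m d : ℕ} (hm : Even m) (hm2 : 2 ≤ m) {u : (Fin n → Bool) → ℂ} (hu : u ∈ D n d) :
    (fun x => chi m (u x)) ∈ D n (m * d) := by
  obtain ⟨k, hk⟩ := hm
  obtain ⟨j, rfl⟩ : ∃ j, k = j + 1 := ⟨k - 1, by omega⟩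
  subst hk
  have h : (fun x => chi (j + 1 + (j + 1)) (u x)) = (u * star u) ^ j * u ^ 2 := by
    funext x
    have h0 : j + 1 + (j + 1) - 2 = 2 * j := by omega
    simp only [chi, h0, Pi.mul_apply, Pi.pow_apply, Pi.star_apply]
    congr 1
    rw [pow_mul]
    congr 1
    have : star (u x) = (starRingEnd ℂ) (u x) := rfl
    rw [this, Complex.mul_conj']
  rw [h]
  have h1 := pow_mem_D (mul_mem_D hu (star_mem_D hu)) j
  have h2 := mul_mem_D h1 (pow_mem_D hu 2)
  have h3 : (d + d) * j + d * 2 = (j + 1 + (j + 1)) * d := by ring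
  rw [← h3]
  exact h2

/-- The imaginary part of the numerical range of the Laplacian on functions of degree at most `d`
in `L^{2m}`, `m` even. -/
lemma im_num_range {m d : ℕ} (hm : Even m) (hm2 : 2 ≤ m) {u : (Fin n → Bool) → ℂ}
    (hu : u ∈ D n d) :
    |(∑ x, phi m (u x) * lap u x).im| ≤ 2 * m * d * ∑ x, ‖u x‖ ^ (2 * m) := by
  have h1 : ∑ x, phi m (u x) * lap u x =
      (((1 / 4 : ℝ) : ℂ)) *
        ∑ i, ∑ x, (phi m (u x) - phi m (u (flp i x))) * (u x - u (flp i x)) := by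
    have h2 : ∀ i, ∑ x, phi m (u (flp i x)) * (u x - u (flp i x)) =
        - ∑ x, phi m (u x) * (u x - u (flp i x)) := by
      intro i
      have h3 := sum_flp i (fun x => phi m (u x) * (u (flp i x) - u x))
      simp only [flp_flp] at h3
      rw [h3, ← sum_neg_distrib]
      refine sum_congr rfl fun x _ => by ring
    have h4 : ∀ i, ∑ x, (phi m (u x) - phi m (u (flp i x))) * (u x - u (flp i x)) =
        2 * ∑ x, phi m (u x) * (u x - u (flp i x)) := by
      intro i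
      have : ∀ x, (phi m (u x) - phi m (u (flp i x))) * (u x - u (flp i x)) =
          phi m (u x) * (u x - u (flp i x)) - phi m (u (flp i x)) * (u x - u (flp i x)) := by
        intro x; ring
      simp only [this]
      rw [sum_sub_distrib, h2]
      ring
    simp only [h4]
    unfold lap
    simp only [mul_sum]
    rw [sum_comm]
    refine sum_congr rfl fun i _ => sum_congr rfl fun x _ => ?_
    push_cast
    ring
  rw [h1, Complex.im_ofReal_mul, abs_mul]
  have h5 : |(∑ i, ∑ x, (phi m (u x) - phi m (u (flp i x))) * (u x - u (flp i x))).im| ≤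
      ∑ i, ∑ x, 2 * ‖chi m (u x) - chi m (u (flp i x))‖ ^ 2 := by
    rw [Complex.im_sum]
    refine (abs_sum_le_sum_abs _ _).trans (sum_le_sum fun i _ => ?_)
    rw [Complex.im_sum]
    refine (abs_sum_le_sum_abs _ _).trans (sum_le_sum fun x _ => ?_)
    exact im_two_point m hm2 _ _
  have h6 := dirichlet_le (chi_mem_D hm hm2 hu)
  simp only [← mul_sum] at h5
  have h7 : ∀ x, ‖chi m (u x)‖ ^ 2 = ‖u x‖ ^ (2 * m) := by
    intro x
    rw [norm_chi m hm2, ← pow_mul, mul_comm]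
  simp only [h7] at h6
  have h8 : |(1 / 4 : ℝ)| = 1 / 4 := by norm_num
  rw [h8]
  push_cast at h6
  linarith

/-- Growth of `exp(i θ Δ)`. -/
lemma Nm_growth_I {m d : ℕ} (hm : Even m) (hm2 : 2 ≤ m) (c : Finset (Fin n) → ℂ)
    (hc : ∀ S, d < S.card → c S = 0) (θ : ℝ) :
    Nm m (evo c ((θ : ℂ) * Complex.I)) ≤ Real.exp (2 * m * (2 * m * d) * |θ|) * Nm m (evo c 0) := by
  set K : ℝ := 2 * m * (2 * m * d) * |θ| with hK
  set z : ℂ := (θ : ℂ) * Complex.I with hz
  set g : ℝ → ℝ := fun t => Nm m (evo c ((t : ℂ) * z)) * Real.exp (-K * t) with hg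
  have hder : ∀ t : ℝ, HasDerivAt g
      ((2 * m * (z * ∑ x, phi m (evo c ((t : ℂ) * z) x) * lap (evo c ((t : ℂ) * z)) x).re) *
        Real.exp (-K * t) + Nm m (evo c ((t : ℂ) * z)) * (Real.exp (-K * t) * (-K))) t := by
    intro t
    have h1 := hasDerivAt_Nm m (by omega) c z t
    have h2 : HasDerivAt (fun t : ℝ => Real.exp (-K * t)) (Real.exp (-K * t) * (-K)) t := by
      have h3 : HasDerivAt (fun t : ℝ => -K * t) (-K) t := by
        simpa using (hasDerivAt_id t).const_mul (-K)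
      exact h3.exp
    exact h1.mul h2
  have hanti : Antitone g := by
    apply antitone_of_deriv_nonpos (fun t => (hder t).differentiableAt)
    intro t
    rw [(hder t).deriv]
    have h4 : (z * ∑ x, phi m (evo c ((t : ℂ) * z) x) * lap (evo c ((t : ℂ) * z)) x).re ≤
        |θ| * (2 * m * d * Nm m (evo c ((t : ℂ) * z))) := by
      have h9 : ∀ W : ℂ, (z * W).re = -(θ * W.im) := by
        intro W
        rw [hz]
        simp
      rw [h9]
      refine (neg_le_abs _).trans ?_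
      rw [abs_mul]
      exact mul_le_mul_of_nonneg_left (im_num_range hm hm2 (evo_mem c hc _)) (abs_nonneg θ)
    have h5 : 0 < Real.exp (-K * t) := Real.exp_pos _
    have h6 : (2 * m * (z * ∑ x, phi m (evo c ((t : ℂ) * z) x) * lap (evo c ((t : ℂ) * z)) x).re) ≤
        K * Nm m (evo c ((t : ℂ) * z)) := by
      have h7 : (0 : ℝ) ≤ 2 * m := by positivity
      calc 2 * m * (z * ∑ x, phi m (evo c ((t : ℂ) * z) x) * lap (evo c ((t : ℂ) * z)) x).re
          ≤ 2 * m * (|θ| * (2 * m * d * Nm m (evo c ((t : ℂ) * z)))) :=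
            mul_le_mul_of_nonneg_left h4 h7
        _ = K * Nm m (evo c ((t : ℂ) * z)) := by rw [hK]; ring
    nlinarith
  have h10 := hanti (zero_le_one' ℝ)
  simp only [hg, Complex.ofReal_one, one_mul, Complex.ofReal_zero, zero_mul, mul_one, mul_zero,
    Real.exp_zero] at h10
  have h11 : 0 < Real.exp K := Real.exp_pos _
  have h12 : Real.exp (-K) * Real.exp K = 1 := by
    rw [← Real.exp_add]; simp
  calc Nm m (evo c z) = (Nm m (evo c z) * Real.exp (-K)) * Real.exp K := by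
        rw [mul_assoc, h12, mul_one]
    _ ≤ Nm m (evo c 0) * Real.exp K := mul_le_mul_of_nonneg_right h10 h11.le
    _ = _ := mul_comm _ _

end Pool.Agent.Helper40.MB
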