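import Mathlib

/-!
Bernstein's kernel on the roots of unity, and a product of cosines concentrated near zero.
-/

set_option autoImplicit false

open Finset

namespace Pool.Agent.Helper40.MB

/-- `r`-th power of the primitive root of order `2N`. -/
noncomputable def rt (N : ℕ) (r : ℕ) : ℂ := Complex.exp (2 * Real.pi * Complex.I / (2 * N : ℕ)) ^ r

lemma norm_rt (N r : ℕ) : ‖rt N r‖ = 1 := by
  unfold rt
  rw [norm_pow]
  have : (2 * Real.pi * Complex.I / (2 * N : ℕ) : ℂ) = ((2 * Real.pi / (2 * N : ℕ) : ℝ) : ℂ) * Complex.I := by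
    push_cast; ring
  rw [this, Complex.norm_exp_ofReal_mul_I, one_pow]

lemma rt_ne_zero (N r : ℕ) : rt N r ≠ 0 := by
  intro h
  have := norm_rt N r
  rw [h, norm_zero] at this
  exact zero_ne_one this

/-- orthogonality -/
lemma sum_rt_zpow {N : ℕ} (hN : 0 < N) {q : ℤ} (hq0 : q ≠ 0) (hq : |q| < 2 * N) :
    ∑ r ∈ range (2 * N), rt N r ^ q = 0 := by
  have h2N : 2 * N ≠ 0 := by omega
  have hprim := Complex.isPrimitiveRoot_exp (2 * N) h2N
  set ω := Complex.exp (2 * Real.pi * Complex.I / (2 * N : ℕ)) with hω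
  have h1 : ∀ r, rt N r ^ q = (ω ^ q) ^ r := by
    intro r
    unfold rt
    rw [← hω, ← zpow_natCast, ← zpow_natCast, ← zpow_mul, ← zpow_mul, mul_comm]
  simp only [h1]
  have hne : ω ^ q ≠ 1 := by
    intro h
    rw [hprim.zpow_eq_one_iff_dvd] at h
    have := Int.le_of_dvd (abs_pos.2 hq0) ((dvd_abs _ _).2 h)
    push_cast at this
    omega
  have h3 : (ω ^ q) ^ (2 * N) = 1 := by
    rw [← zpow_natCast, ← zpow_mul, mul_comm, zpow_mul, zpow_natCast, hprim.pow_eq_one, one_zpow]
  have h4 := geom_sum_mul (ω ^ q) (2 * N)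
  rw [h3, sub_self] at h4
  rcases mul_eq_zero.1 h4 with h5 | h5
  · exact h5
  · exact absurd (sub_eq_zero.1 h5) hne

/-- Dirichlet kernel -/
noncomputable def dk (N : ℕ) (w : ℂ) : ℂ := ∑ j ∈ range N, w ^ j

lemma norm_dk_sq (N : ℕ) {w : ℂ} (hw : ‖w‖ = 1) :
    ((‖dk N w‖ ^ 2 : ℝ) : ℂ) = ∑ i ∈ range N, ∑ j ∈ range N, w ^ ((i : ℤ) - (j : ℤ)) := by
  have hw0 : w ≠ 0 := by
    intro h
    rw [h, norm_zero] at hw
    exact zero_ne_one hw
  have hinv : (starRingEnd ℂ) w = w⁻¹ := (Complex.inv_eq_conj hw).symm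
  rw [Complex.ofReal_pow, ← Complex.mul_conj']
  unfold dk
  rw [map_sum, sum_mul_sum]
  refine sum_congr rfl fun i _ => sum_congr rfl fun j _ => ?_
  rw [map_pow, hinv, zpow_sub₀ hw0, zpow_natCast, zpow_natCast, inv_pow, div_eq_mul_inv]

/-- the Bernstein kernel on monomials -/
lemma kernel_monomial {N : ℕ} (hN : 0 < N) {k : ℕ} (hk : k ≤ N) :
    ∑ r ∈ range (2 * N), ((‖dk N (rt N r)‖ ^ 2 : ℝ) : ℂ) * (rt N r ^ (-(N : ℤ)) * rt N r ^ k)
      = 2 * N * k := by
  have h1 : ∀ r, ((‖dk N (rt N r)‖ ^ 2 : ℝ) : ℂ) * (rt N r ^ (-(N : ℤ)) * rt N r ^ k)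
      = ∑ i ∈ range N, ∑ j ∈ range N, rt N r ^ ((i : ℤ) - (j : ℤ) - N + k) := by
    intro r
    rw [norm_dk_sq N (norm_rt N r), sum_mul]
    refine sum_congr rfl fun i _ => ?_
    rw [sum_mul]
    refine sum_congr rfl fun j _ => ?_
    have h0 := rt_ne_zero N r
    rw [← zpow_natCast, ← zpow_add₀ h0, ← zpow_add₀ h0]
    congr 1
    ring
  simp only [h1]
  rw [sum_comm]
  have h2 : ∀ i ∈ range N, ∑ r ∈ range (2 * N), ∑ j ∈ range N, rt N r ^ ((i : ℤ) - (j : ℤ) - N + k)
      = if N ≤ i + k then (2 * N : ℂ) else 0 := by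
    intro i hi
    rw [mem_range] at hi
    rw [sum_comm]
    have h3 : ∀ j ∈ range N, ∑ r ∈ range (2 * N), rt N r ^ ((i : ℤ) - (j : ℤ) - N + k)
        = if j + N = i + k then (2 * N : ℂ) else 0 := by
      intro j hj
      rw [mem_range] at hj
      split_ifs with h
      · have : (i : ℤ) - (j : ℤ) - N + k = 0 := by
          have : (j : ℤ) + N = i + k := by exact_mod_cast h
          linarith
        rw [this]
        simp
      · apply sum_rt_zpow hN
        · intro h4
          apply h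
          have : (j : ℤ) + N = i + k := by linarith
          exact_mod_cast this
        · rw [abs_lt]
          constructor
          · have : (j : ℤ) < N := by exact_mod_cast hj
            have : (0 : ℤ) ≤ i := by positivity
            have : (0 : ℤ) ≤ k := by positivity
            linarith
          · have : (i : ℤ) < N := by exact_mod_cast hi
            have : (0 : ℤ) ≤ j := by positivity
            have : (k : ℤ) ≤ N := by exact_mod_cast hk
            linarith
    rw [sum_congr rfl h3]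
    split_ifs with h
    · rw [sum_eq_single (i + k - N)]
      · rw [if_pos (by omega)]
      · intro j _ hj
        rw [if_neg (by omega)]
      · intro h5
        exfalso
        apply h5
        rw [mem_range]
        omega
    · apply sum_eq_zero
      intro j _
      rw [if_neg (by omega)]
  rw [sum_congr rfl h2, ← sum_filter, sum_const, nsmul_eq_mul]
  have h6 : (filter (fun i => N ≤ i + k) (range N)).card = k := by
    have : filter (fun i => N ≤ i + k) (range N) = Ico (N - k) N := by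
      ext i
      simp only [mem_filter, mem_range, mem_Ico]
      omega
    rw [this, Nat.card_Ico]
    omega
  rw [h6]
  ring

/-- the Bernstein kernel on polynomials -/
lemma kernel_poly {N : ℕ} (hN : 0 < N) (p : Polynomial ℂ) (hp : p.natDegree ≤ N) :
    ∑ r ∈ range (2 * N), ((‖dk N (rt N r)‖ ^ 2 : ℝ) : ℂ) *
        (rt N r ^ (-(N : ℤ)) * p.eval (rt N r))
      = 2 * N * (Polynomial.derivative p).eval 1 := by
  have h1 : ∀ w : ℂ, p.eval w = ∑ k ∈ range (N + 1), p.coeff k * w ^ k := fun w =>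
    Polynomial.eval_eq_sum_range' (by omega) w
  have h2 : (Polynomial.derivative p).eval 1 = ∑ k ∈ range (N + 1), p.coeff k * k := by
    rw [Polynomial.derivative_eval, Polynomial.sum_over_range' p (by simp) (N + 1) (by omega)]
    simp
  rw [h2, mul_sum]
  simp only [h1]
  have h3 : ∀ r, ((‖dk N (rt N r)‖ ^ 2 : ℝ) : ℂ) *
        (rt N r ^ (-(N : ℤ)) * ∑ k ∈ range (N + 1), p.coeff k * rt N r ^ k)
      = ∑ k ∈ range (N + 1), p.coeff k * (((‖dk N (rt N r)‖ ^ 2 : ℝ) : ℂ) *
        (rt N r ^ (-(N : ℤ)) * rt N r ^ k)) := by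
    intro r
    rw [mul_sum, mul_sum]
    refine sum_congr rfl fun k _ => by ring
  simp only [h3]
  rw [sum_comm]
  refine sum_congr rfl fun k hk => ?_
  rw [mem_range] at hk
  rw [← mul_sum, kernel_monomial hN (by omega)]
  ring

/-- total mass of the kernel -/
lemma kernel_mass {N : ℕ} (hN : 0 < N) :
    ∑ r ∈ range (2 * N), ‖dk N (rt N r)‖ ^ 2 = 2 * (N : ℝ) * N := by
  have h := kernel_monomial hN (le_refl N)
  have h1 : ∀ r, rt N r ^ (-(N : ℤ)) * rt N r ^ N = 1 := by
    intro r
    rw [← zpow_natCast, ← zpow_add₀ (rt_ne_zero N r)]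
    simp
  simp only [h1, mul_one] at h
  exact_mod_cast h

end Pool.Agent.Helper40.MB
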