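import Mathlib
import Pool.Agent.Helper40.MB.Im
import Pool.Agent.Helper40.MB.Kernel
import Pool.Agent.Helper40.MB.Cosines
import Pool.Agent.Helper54.MB.Main

/-!
The bound on the Laplacian in `L^{2m}`, `m` even.
-/

set_option autoImplicit false

open Finset
open scoped ENNReal

namespace Pool.Agent.Helper40.MB

open Pool.Agent.Helper54.MB

variable {n : ℕ}

/-- `f_w = ∑_S w^{|S|} c_S ch_S` -/
noncomputable def fw (c : Finset (Fin n) → ℂ) (w : ℂ) (x : Fin n → Bool) : ℂ :=
  ∑ S, (c S * w ^ S.card) * ch S x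

lemma fw_exp (c : Finset (Fin n) → ℂ) (z : ℂ) : fw c (Complex.exp z) = evo c z := by
  funext x
  unfold fw evo
  refine sum_congr rfl fun S _ => ?_
  rw [← Complex.exp_nat_mul, mul_comm z]

lemma fw_one (c : Finset (Fin n) → ℂ) : fw c 1 = evo c 0 := by
  rw [← fw_exp, Complex.exp_zero]

/-- the kernel identity -/
lemma kernel_identity {N d : ℕ} (hN : 0 < N) (g : Polynomial ℂ) (hg : g.natDegree + d ≤ N)
    (hg1 : g.eval 1 = 1) (c : Finset (Fin n) → ℂ) (hc : ∀ S, d < S.card → c S = 0)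
    (x : Fin n → Bool) :
    ∑ r ∈ range (2 * N), (((‖dk N (rt N r)‖ ^ 2 : ℝ) : ℂ) * (rt N r ^ (-(N : ℤ)) * g.eval (rt N r)))
        * fw c (rt N r) x
      = 2 * N * (lap (evo c 0) x + (Polynomial.derivative g).eval 1 * evo c 0 x) := by
  have e0 : evo c 0 = fun x => ∑ S, c S * ch S x := by
    funext x
    unfold evo
    simp
  have e1 : lap (evo c 0) x = ∑ S, (S.card : ℂ) * c S * ch S x := by
    rw [e0, lap_sum]
  have e2 : evo c 0 x = ∑ S, c S * ch S x := by rw [e0]
  rw [e1, e2, mul_sum, ← sum_add_distrib, mul_sum]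
  unfold fw
  have h1 : ∀ r, (((‖dk N (rt N r)‖ ^ 2 : ℝ) : ℂ) * (rt N r ^ (-(N : ℤ)) * g.eval (rt N r)))
        * ∑ S, (c S * rt N r ^ S.card) * ch S x
      = ∑ S, (c S * ch S x) * (((‖dk N (rt N r)‖ ^ 2 : ℝ) : ℂ) *
        (rt N r ^ (-(N : ℤ)) * (g * Polynomial.X ^ S.card).eval (rt N r))) := by
    intro r
    rw [mul_sum]
    refine sum_congr rfl fun S _ => ?_
    rw [Polynomial.eval_mul, Polynomial.eval_pow, Polynomial.eval_X]
    ring
  simp only [h1]
  rw [sum_comm]
  refine sum_congr rfl fun S _ => ?_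
  rw [← mul_sum]
  by_cases hS : d < S.card
  · rw [hc S hS]; simp
  · rw [kernel_poly hN (g * Polynomial.X ^ S.card)]
    · rw [Polynomial.derivative_mul, Polynomial.eval_add, Polynomial.eval_mul, Polynomial.eval_mul,
        hg1, Polynomial.derivative_X_pow]
      simp
      ring
    · refine Polynomial.natDegree_mul_le.trans ?_
      rw [Polynomial.natDegree_X_pow]
      omega

lemma deriv_bound {N : ℕ} (hN : 0 < N) (g : Polynomial ℂ) (hg : g.natDegree ≤ N)
    (hg1 : ∀ w : ℂ, ‖w‖ = 1 → ‖g.eval w‖ ≤ 1) :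
    ‖(Polynomial.derivative g).eval 1‖ ≤ N := by
  have h := kernel_poly hN g hg
  have hNR : (0 : ℝ) < N := by exact_mod_cast hN
  have h1 : ‖(2 * (N : ℂ)) * (Polynomial.derivative g).eval 1‖ ≤ 2 * (N : ℝ) * N := by
    rw [← h, ← kernel_mass hN]
    refine (norm_sum_le _ _).trans (sum_le_sum fun r _ => ?_)
    rw [norm_mul, norm_mul, norm_zpow, norm_rt, one_zpow, one_mul, Complex.norm_real,
      Real.norm_of_nonneg (by positivity)]
    calc ‖dk N (rt N r)‖ ^ 2 * ‖g.eval (rt N r)‖ ≤ ‖dk N (rt N r)‖ ^ 2 * 1 :=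
          mul_le_mul_of_nonneg_left (hg1 _ (norm_rt N r)) (by positivity)
      _ = _ := mul_one _
  rw [norm_mul, norm_mul, Complex.norm_ofNat, Complex.norm_natCast] at h1
  exact le_of_mul_le_mul_left h1 (by positivity)

/-- The main bound. -/
theorem even_main {m d : ℕ} (hm : Even m) (hm2 : 2 ≤ m) (hd : 1 ≤ d) (c : Finset (Fin n) → ℂ)
    (hc : ∀ S, d < S.card → c S = 0) (J N : ℕ) (hJ : 2 * m * d ≤ 2 ^ J)
    (hN : (∑ j ∈ range (J + 1), 2 * ex (2 * m * d) j * 2 ^ j) + d ≤ N) :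
    Nm m (lap (evo c 0)) ≤ (6 * N) ^ (2 * m) * Nm m (evo c 0) := by
  have hm1 : 1 ≤ m := by omega
  have hN0 : 0 < N := by omega
  have : Fact ((1 : ℝ≥0∞) ≤ ((2 * m : ℕ) : ℝ≥0∞)) :=
    ⟨by exact_mod_cast (by omega : 1 ≤ 2 * m)⟩
  let p : ℝ≥0∞ := ((2 * m : ℕ) : ℝ≥0∞)
  let F : ((Fin n → Bool) → ℂ) → PiLp p (fun _ : (Fin n → Bool) => ℂ) := fun u => WithLp.toLp p u
  have hF : ∀ u, ‖F u‖ ^ (2 * m) = Nm m u := fun u => norm_toLp_pow m hm1 u
  set B : ℕ := 2 * m * d with hB
  set g := G B J with hg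
  have hgdeg : g.natDegree + d ≤ N := (Nat.add_le_add_right (natDegree_G B J) d).trans hN
  set M : ℝ := ‖F (evo c 0)‖ with hM
  have hM0 : 0 ≤ M := norm_nonneg _
  -- the bound on the circle
  have hcirc : ∀ w : ℂ, ‖w‖ = 1 → ‖g.eval w‖ * ‖F (fw c w)‖ ≤ 5 * M := by
    intro w hw
    set t := Complex.arg w with ht
    have hwt : w = Complex.exp (t * Complex.I) := by
      have := Complex.norm_mul_exp_arg_mul_I w
      rw [hw, Complex.ofReal_one, one_mul] at this
      exact this.symm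
    have htpi : |t| ≤ Real.pi := Complex.abs_arg_le_pi w
    have h1 : ‖F (fw c w)‖ ≤ Real.exp (B * |t|) * M := by
      rw [hwt, fw_exp]
      have h2 := Nm_growth_I hm hm2 c hc t
      rw [← hF, ← hF] at h2
      have h3 : Real.exp (2 * m * (2 * m * d) * |t|) = Real.exp (B * |t|) ^ (2 * m) := by
        rw [← Real.exp_nat_mul]
        congr 1
        rw [hB]
        push_cast
        ring
      rw [h3, ← mul_pow] at h2
      exact le_of_pow_le_pow_left₀ (by omega) (by positivity) h2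
    have h4 : ‖g.eval w‖ * Real.exp (B * |t|) ≤ Real.exp (Real.pi / 2) := by
      rw [hwt]
      exact G_damp B J hJ htpi
    calc ‖g.eval w‖ * ‖F (fw c w)‖ ≤ ‖g.eval w‖ * (Real.exp (B * |t|) * M) :=
          mul_le_mul_of_nonneg_left h1 (norm_nonneg _)
      _ = (‖g.eval w‖ * Real.exp (B * |t|)) * M := by ring
      _ ≤ 5 * M := mul_le_mul_of_nonneg_right (h4.trans exp_half_pi) hM0
  -- vector identity
  have hvec : ∑ r ∈ range (2 * N), (((‖dk N (rt N r)‖ ^ 2 : ℝ) : ℂ) *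
        (rt N r ^ (-(N : ℤ)) * g.eval (rt N r))) • F (fw c (rt N r))
      = (2 * N : ℂ) • (F (lap (evo c 0)) + (Polynomial.derivative g).eval 1 • F (evo c 0)) := by
    have h1 : ∀ x : Fin n → Bool, _ := fun x => kernel_identity hN0 g hgdeg (eval_G_one B J) c hc x
    have h2 : (fun x => ∑ r ∈ range (2 * N), (((‖dk N (rt N r)‖ ^ 2 : ℝ) : ℂ) *
        (rt N r ^ (-(N : ℤ)) * g.eval (rt N r))) * fw c (rt N r) x)
        = fun x => 2 * (N : ℂ) * (lap (evo c 0) x + (Polynomial.derivative g).eval 1 * evo c 0 x) :=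
      funext h1
    have h3 := congrArg F h2
    have h4 : F (fun x => ∑ r ∈ range (2 * N), (((‖dk N (rt N r)‖ ^ 2 : ℝ) : ℂ) *
        (rt N r ^ (-(N : ℤ)) * g.eval (rt N r))) * fw c (rt N r) x)
        = ∑ r ∈ range (2 * N), (((‖dk N (rt N r)‖ ^ 2 : ℝ) : ℂ) *
        (rt N r ^ (-(N : ℤ)) * g.eval (rt N r))) • F (fw c (rt N r)) := by
      ext x
      simp only [F, WithLp.ofLp_sum, Finset.sum_apply, PiLp.smul_apply, smul_eq_mul]
    have h5 : F (fun x => 2 * (N : ℂ) * (lap (evo c 0) x + (Polynomial.derivative g).eval 1 * evo c 0 x))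
        = (2 * N : ℂ) • (F (lap (evo c 0)) + (Polynomial.derivative g).eval 1 • F (evo c 0)) := by
      ext x
      simp [F]
      ring
    rw [h4, h5] at h3
    exact h3
  have hNR : (0 : ℝ) < N := by exact_mod_cast hN0
  -- norm of the left-hand side
  have hleft : ‖(2 * N : ℂ) • (F (lap (evo c 0)) + (Polynomial.derivative g).eval 1 • F (evo c 0))‖
      ≤ (2 * (N : ℝ) * N) * (5 * M) := by
    rw [← hvec, ← kernel_mass hN0, sum_mul]
    refine (norm_sum_le _ _).trans (sum_le_sum fun r _ => ?_)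
    rw [norm_smul, norm_mul, norm_mul, norm_zpow, norm_rt, one_zpow, one_mul, Complex.norm_real,
      Real.norm_of_nonneg (by positivity), mul_assoc]
    exact mul_le_mul_of_nonneg_left (hcirc _ (norm_rt N r)) (by positivity)
  rw [norm_smul, norm_mul, Complex.norm_ofNat, Complex.norm_natCast] at hleft
  have h6 : ‖F (lap (evo c 0)) + (Polynomial.derivative g).eval 1 • F (evo c 0)‖ ≤ N * (5 * M) := by
    have : 2 * (N : ℝ) * ‖F (lap (evo c 0)) + (Polynomial.derivative g).eval 1 • F (evo c 0)‖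
        ≤ 2 * (N : ℝ) * (N * (5 * M)) := by linarith
    exact le_of_mul_le_mul_left this (by positivity)
  have h7 : ‖(Polynomial.derivative g).eval 1 • F (evo c 0)‖ ≤ N * M := by
    rw [norm_smul]
    exact mul_le_mul_of_nonneg_right
      (deriv_bound hN0 g (by omega) (fun w hw => norm_G_le hw B J)) hM0
  have h8 : ‖F (lap (evo c 0))‖ ≤ 6 * N * M := by
    have h9 : F (lap (evo c 0)) = (F (lap (evo c 0)) + (Polynomial.derivative g).eval 1 • F (evo c 0))
        - (Polynomial.derivative g).eval 1 • F (evo c 0) := by abel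
    rw [h9]
    refine (norm_sub_le _ _).trans ?_
    linarith
  rw [← hF, ← hF, ← mul_pow]
  exact pow_le_pow_left₀ (norm_nonneg _) h8 _

/-- numerical form of the bound -/
lemma numeric {B d : ℕ} (hB : 4 * d ≤ B) (hd : 1 ≤ d) :
    6 * ((10 * B * (Nat.clog 2 B + 1) + 8 * B + d : ℕ) : ℝ) ≤ 200 * B * Real.log (B + 1) := by
  have hB4 : 4 ≤ B := by omega
  set J := Nat.clog 2 B with hJ
  have h1 : 2 ^ (J - 1) < B := by
    have := Nat.pow_pred_clog_lt_self (b := 2) (by norm_num) (show 1 < B by omega)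
    exact this
  have hBR : (4 : ℝ) ≤ B := by exact_mod_cast hB4
  have h2 : ((J - 1 : ℕ) : ℝ) * Real.log 2 ≤ Real.log (B + 1) := by
    have h3 : (2 : ℝ) ^ (J - 1) ≤ B + 1 := by
      have : (2 : ℝ) ^ (J - 1) < B := by exact_mod_cast h1
      linarith
    have h4 := Real.log_le_log (by positivity) h3
    rw [Real.log_pow] at h4
    exact h4
  have hlog2 := Real.log_two_gt_d9
  have hJR : (J : ℝ) ≤ ((J - 1 : ℕ) : ℝ) + 1 := by
    have : J ≤ (J - 1) + 1 := by omega
    exact_mod_cast this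
  have h5 : (J : ℝ) ≤ 1.5 * Real.log (B + 1) + 1 := by
    have h6 : ((J - 1 : ℕ) : ℝ) * 0.6931 ≤ Real.log (B + 1) := by
      refine le_trans ?_ h2
      apply mul_le_mul_of_nonneg_left (by linarith) (Nat.cast_nonneg _)
    have h7 : (0 : ℝ) ≤ ((J - 1 : ℕ) : ℝ) := Nat.cast_nonneg _
    linarith
  have h8 : (1.6 : ℝ) ≤ Real.log (B + 1) := by
    have h9 : Real.exp 1.6 ≤ B + 1 := by
      have h10 : Real.exp (8 / 5) ^ 5 = Real.exp 1 ^ 8 := by
        rw [← Real.exp_nat_mul, ← Real.exp_nat_mul]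
        norm_num
      have h11 : Real.exp 1 ^ 8 ≤ 5 ^ 5 := by
        have := Real.exp_one_lt_d9
        calc Real.exp 1 ^ 8 ≤ 2.7182818286 ^ 8 := pow_le_pow_left₀ (Real.exp_pos _).le this.le 8
          _ ≤ 5 ^ 5 := by norm_num
      have h12 : Real.exp (8 / 5) ≤ 5 := by
        rw [← h10] at h11
        exact le_of_pow_le_pow_left₀ (by norm_num) (by norm_num) h11
      have : (1.6 : ℝ) = 8 / 5 := by norm_num
      rw [this]
      linarith
    rw [Real.le_log_iff_exp_le (by linarith)]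
    exact h9
  have hdR : (d : ℝ) ≤ B / 4 := by
    have : 4 * (d : ℝ) ≤ B := by exact_mod_cast hB
    linarith
  push_cast
  have hlogpos : 0 ≤ Real.log (B + 1 : ℝ) := by linarith
  have h13 : 6 * (10 * (B : ℝ) * (J + 1) + 8 * B + d) ≤ B * (60 * J + 109.5) := by nlinarith
  have h14 : 60 * (J : ℝ) + 109.5 ≤ 200 * Real.log (B + 1) := by nlinarith
  calc 6 * (10 * (B : ℝ) * (J + 1) + 8 * B + d) ≤ B * (60 * J + 109.5) := h13
    _ ≤ B * (200 * Real.log (B + 1)) := mul_le_mul_of_nonneg_left h14 (by linarith)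
    _ = _ := by ring

/-- The bound for complex coefficients. -/
theorem even_bound {m d : ℕ} (hm : Even m) (hm2 : 2 ≤ m) (c : Finset (Fin n) → ℂ)
    (hc : ∀ S, d < S.card → c S = 0) :
    ∑ x, ‖∑ S, (S.card : ℂ) * c S * ch S x‖ ^ (2 * m) ≤
      (200 * (2 * m * d) * Real.log (2 * m * d + 1)) ^ (2 * m) *
        ∑ x, ‖∑ S, c S * ch S x‖ ^ (2 * m) := by
  have e0 : ∀ x, evo c 0 x = ∑ S, c S * ch S x := by
    intro x
    unfold evo
    simp
  have e1 : ∀ x, lap (evo c 0) x = ∑ S, (S.card : ℂ) * c S * ch S x := by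
    intro x
    have h1 : evo c 0 = fun x => ∑ S, c S * ch S x := funext e0
    rw [h1, lap_sum]
  rcases Nat.eq_zero_or_pos d with h0 | hd
  · have h2 : ∀ x : Fin n → Bool, ∑ S, (S.card : ℂ) * c S * ch S x = 0 := by
      intro x
      apply sum_eq_zero
      intro S _
      rcases Nat.eq_zero_or_pos S.card with h3 | h3
      · rw [h3]; simp
      · rw [hc S (by omega)]; simp
    simp only [h2, norm_zero]
    rw [zero_pow (by omega), sum_const_zero, h0]
    have : (200 * (2 * (m : ℝ) * ((0 : ℕ) : ℝ)) * Real.log (2 * m * ((0 : ℕ) : ℝ) + 1)) ^ (2 * m) = 0 := by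
      rw [Nat.cast_zero, mul_zero, mul_zero, zero_mul, zero_pow (by omega)]
    rw [this, zero_mul]
  · set J := Nat.clog 2 (2 * m * d) with hJ
    have hB4 : 4 * d ≤ 2 * m * d := by nlinarith
    have hJ1 : 2 * m * d ≤ 2 ^ J := Nat.le_pow_clog (by norm_num) _
    have hJ2 : 2 ^ J ≤ 2 * (2 * m * d) := by
      have h1 := Nat.pow_pred_clog_lt_self (b := 2) (by norm_num) (show 1 < 2 * m * d by omega)
      have h2 : 1 ≤ J := by
        by_contra h3
        have : J = 0 := by omega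
        rw [this, pow_zero] at hJ1
        omega
      have h3 : 2 ^ J = 2 ^ (J - 1) * 2 := by
        rw [← pow_succ]; congr 1; omega
      have h4 : 2 ^ (J - 1) < 2 * m * d := h1
      omega
    have hN : (∑ j ∈ range (J + 1), 2 * ex (2 * m * d) j * 2 ^ j) + d
        ≤ 10 * (2 * m * d) * (J + 1) + 8 * (2 * m * d) + d :=
      Nat.add_le_add_right (degree_bound _ _ hJ2) d
    have h := even_main hm hm2 hd c hc J _ hJ1 hN
    unfold Nm at h
    simp only [e0, e1] at h
    refine h.trans ?_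
    apply mul_le_mul_of_nonneg_right _ (sum_nonneg fun x _ => by positivity)
    apply pow_le_pow_left₀ (by positivity)
    have h5 := numeric hB4 hd
    push_cast at h5 ⊢
    exact h5

end Pool.Agent.Helper40.MB
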